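import Pool.Agent.H65.EN.Targets
import Pool.Agent.H7.LVE.BXM

/-! Row BXX of the board `enx_modules` (problem MP_e21eee_nt): the measure of a small box. -/

set_option autoImplicit false

namespace Pool.Agent.H95.EN

open Finset MeasureTheory
open Pool.Agent.H24.CL Pool.Agent.H24.LV Pool.Agent.H31.LV Pool.Agent.H50.LV Pool.Agent.H65.EN

theorem pf_BXX (h1 : T_ARC) : T_BXX := by
  intro k N M₁ q f c S hk hN hM
  have hNr : (0 : ℝ) < N := by exact_mod_cast hN
  have hMr : (0 : ℝ) < M₁ := by exact_mod_cast hM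
  rw [measureReal_def, volume_pi_pi, ENNReal.toReal_prod]
  have h2 : ∀ i : Fin k, (volume (BxM M₁ N q f c S i)).toReal ≤
      if i.val = 0 then volume.real S else 1 / ((M₁ : ℝ) * (N : ℝ) ^ (i.val + 1)) := by
    intro i
    unfold BxM
    by_cases hi : i.val = 0
    · rw [if_pos hi, if_pos hi]
      rfl
    · rw [if_neg hi, if_neg hi]
      have h3 := h1 ((f i : ℝ) / q + c i / ((M₁ : ℝ) * (N : ℝ) ^ (i.val + 1)))
        ((f i : ℝ) / q + (c i + 1) / ((M₁ : ℝ) * (N : ℝ) ^ (i.val + 1))) (by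
          have : (c i : ℝ) / ((M₁ : ℝ) * (N : ℝ) ^ (i.val + 1)) ≤
              (c i + 1) / ((M₁ : ℝ) * (N : ℝ) ^ (i.val + 1)) := by
            apply div_le_div_of_nonneg_right _ (by positivity)
            linarith
          linarith)
      refine h3.trans (le_of_eq ?_)
      ring
  refine (prod_le_prod (fun i _ => ENNReal.toReal_nonneg) fun i _ => h2 i).trans ?_
  obtain ⟨k', rfl⟩ : ∃ k', k = k' + 1 := ⟨k - 1, by omega⟩
  have h4 := Pool.Agent.H7.LVE.sum_KN' (k' + 1)
  rw [Fin.sum_univ_succ] at h4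
  rw [Fin.prod_univ_succ, ← h4]
  have h5 : ∏ i : Fin k', (if (i.succ).val = 0 then volume.real S else
      1 / ((M₁ : ℝ) * (N : ℝ) ^ ((i.succ).val + 1))) =
      1 / ((M₁ : ℝ) ^ k' * (N : ℝ) ^ (∑ i : Fin k', ((i.succ).val + 1))) := by
    have h7 : (M₁ : ℝ) ^ k' * (N : ℝ) ^ (∑ i : Fin k', ((i.succ).val + 1)) =
        ∏ i : Fin k', ((M₁ : ℝ) * (N : ℝ) ^ ((i.succ).val + 1)) := by
      rw [prod_mul_distrib, prod_const, card_univ, Fintype.card_fin, prod_pow_eq_pow_sum]
    rw [h7, one_div, ← prod_inv_distrib]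
    refine prod_congr rfl fun i _ => ?_
    rw [if_neg (by simp), one_div]
  rw [h5]
  have h6 : ((0 : Fin (k' + 1))).val = 0 := rfl
  rw [if_pos h6, h6, zero_add, pow_add, pow_one, Nat.add_sub_cancel]
  apply le_of_eq
  field_simp

end Pool.Agent.H95.EN
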